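import Pool.Agent.H6.NB.Targets
import Pool.Agent.H68.AC.Final

/-!
Module L12: the second level of the Fourier spectrum of a formula.
-/

set_option autoImplicit false

namespace Pool.Agent.H3.NB.L12

open Finset Pool.Agent.H6.NB
open Pool.Agent.H68.AC (PA Ckt fd Wt rho Ext ind mrg mask)

variable {V : Type} [Fintype V] [DecidableEq V]

omit [Fintype V] [DecidableEq V] in
theorem tree_subst (t : Pool.Agent.H68.AC.DT V) (ρ : V → Option Bool) :
    ∃ t' : Pool.Agent.H68.AC.DT V, t'.depth ≤ t.depth ∧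
      ∀ y : V → Bool, t'.eval y = t.eval (fun v => (ρ v).getD (y v)) := by
  induction t with
  | leaf b => exact ⟨.leaf b, le_refl _, fun y => rfl⟩
  | node v l r ihl ihr =>
    obtain ⟨l', hl, hl'⟩ := ihl
    obtain ⟨r', hr, hr'⟩ := ihr
    rcases hv : ρ v with _ | b
    · refine ⟨.node v l' r', ?_, fun y => ?_⟩
      · simp only [Pool.Agent.H68.AC.DT.depth]
        omega
      · simp only [Pool.Agent.H68.AC.DT.eval, hv, Option.getD_none, hl', hr']
    · cases b
      · refine ⟨l', ?_, fun y => ?_⟩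
        · simp only [Pool.Agent.H68.AC.DT.depth]
          omega
        · simp only [Pool.Agent.H68.AC.DT.eval, hv, Option.getD_some, cond_false, hl']
      · refine ⟨r', ?_, fun y => ?_⟩
        · simp only [Pool.Agent.H68.AC.DT.depth]
          omega
        · simp only [Pool.Agent.H68.AC.DT.eval, hv, Option.getD_some, cond_true, hr']

omit [Fintype V] [DecidableEq V] in
theorem fd_mono {d : ℕ} (R : Fin d → PA V) (i j : ℕ) (hij : i ≤ j) (v : V) (b : Bool)
    (h : fd R i v = some b) : fd R j v = some b := by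
  induction j, hij using Nat.le_induction with
  | base => exact h
  | succ j hj ih =>
    simp only [fd, mrg]
    rw [ih]

theorem abs_hat_le (F : (V → Bool) → ℝ) (hF : ∀ y, |F y| ≤ 1) (S : Finset V) : |hat F S| ≤ 1 := by
  unfold hat
  rw [abs_div, abs_of_pos (show (0 : ℝ) < 2 ^ Fintype.card V by positivity),
    div_le_one (by positivity)]
  refine (Finset.abs_sum_le_sum_abs _ _).trans ?_
  calc ∑ y : V → Bool, |F y * ∏ u ∈ S, sg (y u)| ≤ ∑ y : V → Bool, (1 : ℝ) := by
        refine Finset.sum_le_sum fun y _ => ?_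
        rw [abs_mul, Finset.abs_prod]
        have : ∏ u ∈ S, |sg (y u)| = 1 := by
          refine Finset.prod_eq_one fun u _ => ?_
          unfold sg
          cases y u <;> simp
        rw [this, mul_one]
        exact hF y
    _ = 2 ^ Fintype.card V := by simp

theorem L12_le (F : (V → Bool) → ℝ) (hF : ∀ y, |F y| ≤ 1) : L12 F ≤ (Fintype.card V : ℝ) ^ 2 := by
  unfold L12
  calc ∑ S ∈ powersetCard 2 (univ : Finset V), |hat F S| ≤
        ∑ S ∈ powersetCard 2 (univ : Finset V), (1 : ℝ) :=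
        Finset.sum_le_sum fun S _ => abs_hat_le F hF S
    _ = ((Fintype.card V).choose 2 : ℝ) := by
        rw [Finset.sum_const, Finset.card_powersetCard, Finset.card_univ]
        simp
    _ ≤ (Fintype.card V : ℝ) ^ 2 := by
        have := Nat.choose_le_pow (Fintype.card V) 2
        exact_mod_cast this

theorem L12_nonneg (F : (V → Bool) → ℝ) : 0 ≤ L12 F :=
  Finset.sum_nonneg fun _ _ => abs_nonneg _

omit [Fintype V] [DecidableEq V] in
theorem rst_abs (ρ : V → Option Bool) (f : (V → Bool) → Bool) (y : V → Bool) :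
    |rst ρ (fun y => bi (f y)) y| ≤ 1 := by
  unfold rst bi
  simp only
  split_ifs <;> simp

theorem t_l12 (h1 : T_CKT) (h2 : T_DTL) (h3 : T_HTR) : T_L12 := by
  intro V _ _ S d w f hw hf
  obtain ⟨s, C, hs, hC⟩ := h1 V S d f hf
  have hwr : (1 : ℝ) ≤ w := by exact_mod_cast hw
  set q : ℝ := 1 / (128 * (w : ℝ)) with hq
  have hq0 : 0 < q := by positivity
  have hq2 : q ≤ 1 / 2 := by
    rw [hq]
    apply one_div_le_one_div_of_le (by norm_num)
    linarith
  have hq1 : q ≤ 1 := by linarith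
  have hqw : 128 * (w : ℝ) * q = 1 := by
    rw [hq]
    field_simp
  have hA := Pool.Agent.H68.AC.A V s (d + 1) C w ∅ (1 / 2) q hw (by norm_num) (le_refl _) hq0 hq2
    (by nlinarith)
  rw [Finset.card_empty, pow_zero, mul_one] at hA
  set F : (V → Bool) → ℝ := fun y => bi (f y) with hF
  -- the pointwise bound
  have hpt : ∀ R : Fin (d + 1) → PA V, L12 (rst (fd R (d + 1)) F) ≤
      (w : ℝ) ^ 2 + (Fintype.card V : ℝ) ^ 2 * ind (∃ g, w < (C.T ∅ R g).depth) := by
    intro R
    by_cases hbad : ∃ g, w < (C.T ∅ R g).depth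
    · have : ind (∃ g, w < (C.T ∅ R g).depth) = 1 := by
        unfold ind
        rw [if_pos hbad]
      rw [this, mul_one]
      have h4 := L12_le (rst (fd R (d + 1)) F) (rst_abs _ f)
      have h5 := sq_nonneg (w : ℝ)
      linarith
    · have : ind (∃ g, w < (C.T ∅ R g).depth) = 0 := by
        unfold ind
        rw [if_neg hbad]
      rw [this, mul_zero, add_zero]
      push Not at hbad
      obtain ⟨t', ht, ht'⟩ := tree_subst (C.T ∅ R C.out) (fd R (d + 1))
      have h4 := h2 V t' w (ht.trans (hbad _))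
      have h5 : rst (fd R (d + 1)) F = fun y => bi (t'.eval y) := by
        funext y
        unfold rst
        rw [hF]
        simp only
        congr 1
        rw [ht' y, ← hC]
        symm
        apply Pool.Agent.H68.AC.cor_t V s (d + 1) C ∅ R C.out
        intro v b hv
        have h6 : fd R (C.lev C.out + 1) v = some b := by
          simpa [rho, mask] using hv
        have h7 := fd_mono R (C.lev C.out + 1) (d + 1) (C.lev_lt C.out) v b h6
        simp only [h7, Option.getD_some]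
      rw [h5]
      exact h4
  -- summation
  have hsum : q ^ ((d + 1) * 2) * L12 F ≤ ∑ R : Fin (d + 1) → PA V,
      Wt q (1 / 2) R * L12 (rst (fd R (d + 1)) F) := by
    unfold L12
    rw [Finset.mul_sum]
    have e1 : ∑ R : Fin (d + 1) → PA V, Wt q (1 / 2) R *
        ∑ S ∈ powersetCard 2 (univ : Finset V), |hat (rst (fd R (d + 1)) F) S| =
        ∑ S ∈ powersetCard 2 (univ : Finset V), ∑ R : Fin (d + 1) → PA V,
          Wt q (1 / 2) R * |hat (rst (fd R (d + 1)) F) S| := by
      rw [Finset.sum_comm]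
      exact Finset.sum_congr rfl fun R _ => Finset.mul_sum _ _ _
    rw [e1]
    refine Finset.sum_le_sum fun S hS => ?_
    have h4 := h3 V (d + 1) q F S hq0 hq1
    rw [(Finset.mem_powersetCard.1 hS).2] at h4
    exact h4
  have hsum2 : ∑ R : Fin (d + 1) → PA V, Wt q (1 / 2) R * L12 (rst (fd R (d + 1)) F) ≤
      (w : ℝ) ^ 2 + (Fintype.card V : ℝ) ^ 2 * (s * (3 / 2 / 2 ^ (w + 1))) := by
    calc ∑ R : Fin (d + 1) → PA V, Wt q (1 / 2) R * L12 (rst (fd R (d + 1)) F) ≤
        ∑ R : Fin (d + 1) → PA V, Wt q (1 / 2) R *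
          ((w : ℝ) ^ 2 + (Fintype.card V : ℝ) ^ 2 * ind (∃ g, w < (C.T ∅ R g).depth)) :=
          Finset.sum_le_sum fun R _ => mul_le_mul_of_nonneg_left (hpt R)
            (Pool.Agent.H90.AC.Wt_nonneg hq0.le hq1 (by norm_num) (by norm_num) R)
      _ = (∑ R : Fin (d + 1) → PA V, Wt q (1 / 2) R) * (w : ℝ) ^ 2 +
          (Fintype.card V : ℝ) ^ 2 * ∑ R : Fin (d + 1) → PA V,
            Wt q (1 / 2) R * ind (∃ g, w < (C.T ∅ R g).depth) := by
          rw [Finset.sum_mul, Finset.mul_sum, ← Finset.sum_add_distrib]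
          refine Finset.sum_congr rfl fun R _ => ?_
          ring
      _ ≤ _ := by
          rw [Pool.Agent.H90.AC.sum_Wt, one_mul]
          have := mul_le_mul_of_nonneg_left hA (sq_nonneg (Fintype.card V : ℝ))
          linarith
  have hfin : (w : ℝ) ^ 2 + (Fintype.card V : ℝ) ^ 2 * (s * (3 / 2 / 2 ^ (w + 1))) ≤
      (w : ℝ) ^ 2 + (Fintype.card V : ℝ) ^ 2 * ((S : ℝ) + 1) ^ (d + 1) / 2 ^ w := by
    have e1 : (s : ℝ) * (3 / 2 / 2 ^ (w + 1)) ≤ ((S : ℝ) + 1) ^ (d + 1) / 2 ^ w := by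
      have e2 : (s : ℝ) ≤ ((S : ℝ) + 1) ^ (d + 1) := by exact_mod_cast hs
      have e3 : (3 / 2 / 2 ^ (w + 1) : ℝ) ≤ 1 / 2 ^ w := by
        rw [pow_succ, div_div, div_le_div_iff₀ (by positivity) (by positivity)]
        have : (0 : ℝ) < 2 ^ w := by positivity
        linarith
      calc (s : ℝ) * (3 / 2 / 2 ^ (w + 1)) ≤ ((S : ℝ) + 1) ^ (d + 1) * (1 / 2 ^ w) :=
            mul_le_mul e2 e3 (by positivity) (by positivity)
        _ = _ := by ring
    have := mul_le_mul_of_nonneg_left e1 (sq_nonneg (Fintype.card V : ℝ))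
    have e4 : (Fintype.card V : ℝ) ^ 2 * (((S : ℝ) + 1) ^ (d + 1) / 2 ^ w) =
      (Fintype.card V : ℝ) ^ 2 * ((S : ℝ) + 1) ^ (d + 1) / 2 ^ w := by ring
    linarith
  have htot : q ^ ((d + 1) * 2) * L12 F ≤
      (w : ℝ) ^ 2 + (Fintype.card V : ℝ) ^ 2 * ((S : ℝ) + 1) ^ (d + 1) / 2 ^ w :=
    hsum.trans (hsum2.trans hfin)
  have hone : (128 * (w : ℝ)) ^ (2 * (d + 1)) * q ^ ((d + 1) * 2) = 1 := by
    rw [mul_comm (d + 1) 2, ← mul_pow, hqw, one_pow]
  calc L12 F = (128 * (w : ℝ)) ^ (2 * (d + 1)) * (q ^ ((d + 1) * 2) * L12 F) := by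
        rw [← mul_assoc, hone, one_mul]
    _ ≤ _ := mul_le_mul_of_nonneg_left htot (by positivity)

end Pool.Agent.H3.NB.L12
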