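import Pool.Agent.H6.NB.Targets

/-!
Module CLS: the classification of the strings.
-/

set_option autoImplicit false

namespace Pool.Agent.H3.NB.CLS

open Finset Pool.Agent.H6.NB

theorem key_inj {s s' : List Bool} (h : key s = key s') : s = s' := by
  unfold key at h
  exact (List.cons.inj (List.cons.inj h).2).2

theorem blk_ne_key (s s' : List Bool) (i : ℕ) (f : Bool) (z : List Bool) : blk s i f z ≠ key s' := by
  intro h
  unfold blk key at h
  have := (List.cons.inj (List.cons.inj h).2).1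
  exact absurd this (by decide)

theorem bse_ne_key (u v s' : List Bool) : bse u v ≠ key s' := by
  intro h
  unfold bse key at h
  have := (List.cons.inj h).1
  exact absurd this (by decide)

theorem bse_ne_blk (u v s : List Bool) (i : ℕ) (f : Bool) (z : List Bool) :
    bse u v ≠ blk s i f z := by
  intro h
  unfold bse blk at h
  have := (List.cons.inj h).1
  exact absurd this (by decide)

theorem bse_inj {n : ℕ} {u v u' v' : Fin n → Bool}
    (h : bse (List.ofFn u) (List.ofFn v) = bse (List.ofFn u') (List.ofFn v')) :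
    u = u' ∧ v = v' := by
  unfold bse at h
  have h1 := (List.cons.inj h).2
  have h2 := List.append_inj h1 (by simp)
  exact ⟨List.ofFn_injective h2.1, List.ofFn_injective h2.2⟩

theorem blk_inj (h1 : T_COD) {s s' : List Bool} {i i' : ℕ} {f f' : Bool} {z z' : List Bool}
    (h : blk s i f z = blk s' i' f' z') : s = s' ∧ i = i' ∧ f = f' ∧ z = z' := by
  unfold blk at h
  have h2 := (List.cons.inj (List.cons.inj h).2).2
  obtain ⟨a, b, c⟩ := h1.1 _ _ _ _ _ _ h2
  have e1 : i = i' ∧ f = f' := by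
    cases f <;> cases f' <;> simp at c ⊢ <;> omega
  exact ⟨a, e1.1, e1.2, b⟩

theorem t_cls (h1 : T_COD) : T_CLS := by
  intro n a o
  have c1 : ∀ u v : Fin n → Bool, cls n a o (bse (List.ofFn u) (List.ofFn v)) = .bas u v := by
    intro u v
    unfold cls
    have h : ∃ p : (Fin n → Bool) × (Fin n → Bool),
        bse (List.ofFn u) (List.ofFn v) = bse (List.ofFn p.1) (List.ofFn p.2) := ⟨(u, v), rfl⟩
    rw [dif_pos h]
    obtain ⟨e1, e2⟩ := bse_inj h.choose_spec
    rw [← e1, ← e2]
  have c2 : ∀ s : Om n a, cls n a o (key s.1) = .key s := by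
    intro s
    unfold cls
    rw [dif_neg, dif_pos (⟨s, rfl⟩ : ∃ s' : Om n a, key s.1 = key s'.1)]
    · have h : ∃ s' : Om n a, key s.1 = key s'.1 := ⟨s, rfl⟩
      have e := key_inj h.choose_spec
      have e' : s = h.choose := Subtype.ext e
      exact congrArg _ e'.symm
    · rintro ⟨p, hp⟩
      exact bse_ne_key _ _ _ hp.symm
  have c3 : ∀ (s : Om n a) (i : Fin (ns s.1)) (v : VV (qs s.1)),
      cls n a o (blk s.1 i v.1 (List.ofFn v.2)) = .blk s i v := by
    intro s i v
    unfold cls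
    have h : ∃ p : Σ s : Om n a, Fin (ns s.1) × VV (qs s.1),
        blk s.1 i v.1 (List.ofFn v.2) = blk p.1.1 p.2.1 p.2.2.1 (List.ofFn p.2.2.2) :=
      ⟨⟨s, i, v⟩, rfl⟩
    rw [dif_neg, dif_neg, dif_pos h]
    · have key2 : ∀ p : Σ s : Om n a, Fin (ns s.1) × VV (qs s.1),
          blk s.1 i v.1 (List.ofFn v.2) = blk p.1.1 p.2.1 p.2.2.1 (List.ofFn p.2.2.2) →
          (Crd.blk p.1 p.2.1 p.2.2 : Cs n a) = .blk s i v := by
        rintro ⟨s', i', v'⟩ hp
        obtain ⟨e1, e2, e3, e4⟩ := blk_inj h1 hp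
        have e5 : s = s' := Subtype.ext e1
        subst e5
        have e6 : i = i' := Fin.ext e2
        have e7 : v.2 = v'.2 := List.ofFn_injective e4
        have e8 : v = v' := Prod.ext e3 e7
        subst e6
        subst e8
        rfl
      exact key2 h.choose h.choose_spec
    · rintro ⟨p, hp⟩
      exact blk_ne_key _ _ _ _ _ hp
    · rintro ⟨p, hp⟩
      exact bse_ne_blk _ _ _ _ _ _ hp.symm
  refine ⟨c1, c2, c3, ?_⟩
  intro w
  by_cases e1 : ∃ u v : Fin n → Bool, w = bse (List.ofFn u) (List.ofFn v)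
  · exact Or.inl e1
  by_cases e2 : ∃ s : Om n a, w = key s.1
  · exact Or.inr (Or.inl e2)
  by_cases e3 : ∃ (s : Om n a) (i : Fin (ns s.1)) (v : VV (qs s.1)),
      w = blk s.1 i v.1 (List.ofFn v.2)
  · exact Or.inr (Or.inr (Or.inl e3))
  refine Or.inr (Or.inr (Or.inr ?_))
  unfold cls
  rw [dif_neg, dif_neg e2, dif_neg]
  · rintro ⟨p, hp⟩
    exact e3 ⟨p.1, p.2.1, p.2.2, hp⟩
  · rintro ⟨p, hp⟩
    exact e1 ⟨p.1, p.2, hp⟩

end Pool.Agent.H3.NB.CLS
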