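import Pool.Agent.H6.NB.Targets

/-!
Module FIN: the limit of the stages.
-/

set_option autoImplicit false

namespace Pool.Agent.H3.NB.FIN

open Finset Filter Pool.Agent.H6.NB

/-- the seeds from which all keys can be read, with a bound -/
abbrev St : Type := {p : (List Bool → Bool) × ℕ // ∀ s, Dec p.1 s}

theorem t_fin (h1 : T_STG) (h2 : T_BLD) (_h3 : T_BLU) (h4 : T_DCC) (h5 : T_INI) : T_FIN := by
  intro prog hS Q hQ
  -- one stage
  have step : ∀ (j : ℕ) (st : St), ∃ (n m : ℕ) (σ : List Bool → Bool), st.1.2 < n ∧ j ≤ n ∧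
      (∀ w, w.length < n → σ w = st.1.1 w) ∧ (∀ s, Dec σ s) ∧
      ∀ σ' O, (∀ w, w.length ≤ m → σ' w = σ w) → Bld prog σ' O →
        ¬ Correct (Q (Nat.unpair j).1 (List.replicate n false)) O (sig O)
          (List.replicate n false) := by
    intro j st
    obtain ⟨c, C, ε, hε, hk⟩ := hQ (Nat.unpair j).1
    have ev := h1 c C ε hε prog hS
    have ev2 : ∀ᶠ n : ℕ in atTop, st.1.2 < n ∧ j ≤ n :=
      (eventually_gt_atTop _).and (eventually_ge_atTop _)
    obtain ⟨n, hn, hn1, hn2⟩ := (ev.and ev2).exists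
    obtain ⟨hs, ht⟩ := hk (List.replicate n false)
    rw [List.length_replicate] at hs ht
    obtain ⟨σ, m, a1, a2, a3⟩ := hn (Q (Nat.unpair j).1 (List.replicate n false)) hs ht st.1.1 st.2
    exact ⟨n, m, σ, hn1, hn2, a1, a2, a3⟩
  choose nn mm ss p1 p2 p3 p4 p5 using step
  let st : ℕ → St := fun j => Nat.rec ⟨(fun _ => false, 0), h5⟩
    (fun j s => ⟨(ss j s, max (nn j s) (mm j s)), p4 j s⟩) j
  have hst : ∀ j, st (j + 1) = ⟨(ss j (st j), max (nn j (st j)) (mm j (st j))), p4 j (st j)⟩ :=
    fun j => rfl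
  set σs : ℕ → List Bool → Bool := fun j => (st j).1.1 with hσs
  set n : ℕ → ℕ := fun j => nn j (st j) with hn
  set m : ℕ → ℕ := fun j => mm j (st j) with hm
  have f1 : ∀ j w, w.length < n j → σs (j + 1) w = σs j w := by
    intro j w hw
    exact p3 j (st j) w hw
  have f2 : ∀ j, n j < n (j + 1) := by
    intro j
    have := p1 (j + 1) (st (j + 1))
    rw [hst] at this
    exact lt_of_le_of_lt (le_max_left _ _) this
  have f3 : ∀ j, m j < n (j + 1) := by
    intro j
    have := p1 (j + 1) (st (j + 1))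
    rw [hst] at this
    exact lt_of_le_of_lt (le_max_right _ _) this
  have f4 : ∀ j, j ≤ n j := fun j => p2 j (st j)
  have hmono : StrictMono n := strictMono_nat_of_lt_succ f2
  have f5 : ∀ j i w, j ≤ i → w.length < n j → σs i w = σs j w := by
    intro j i w hji hw
    induction i, hji using Nat.le_induction with
    | base => rfl
    | succ i hi ih =>
      rw [f1 i w (lt_of_lt_of_le hw (hmono.monotone hi)), ih]
  let σ : List Bool → Bool := fun w => σs (w.length + 1) w
  have f6 : ∀ j w, w.length < n j → σ w = σs j w := by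
    intro j w hw
    change σs (w.length + 1) w = σs j w
    rcases le_total j (w.length + 1) with h | h
    · exact f5 j _ w h hw
    · exact (f5 (w.length + 1) j w h (lt_of_lt_of_le (Nat.lt_succ_self _) (f4 _))).symm
  obtain ⟨O, hO⟩ := h2 prog hS σ
  refine ⟨σ, O, hO, ?_, ?_⟩
  · intro s
    obtain ⟨l, hl⟩ := h4 s
    have : Dec (σs (l + 1)) s := (st (l + 1)).2 s
    refine (hl σ (σs (l + 1)) fun w hw => f6 (l + 1) w ?_).2 this
    have := f4 (l + 1)
    omega
  · intro k M
    refine ⟨n (Nat.pair k M), le_trans (Nat.right_le_pair k M) (f4 _), ?_⟩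
    have key := p5 (Nat.pair k M) (st (Nat.pair k M)) σ O (fun w hw => ?_) hO
    · rw [Nat.unpair_pair] at key
      exact key
    · have := f6 (Nat.pair k M + 1) w (lt_of_le_of_lt hw (f3 _))
      exact this

end Pool.Agent.H3.NB.FIN
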