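import Pool.Agent.H6.NB.Targets

/-!
Module FIS: finitely many strings.
-/

set_option autoImplicit false

namespace Pool.Agent.H3.NB.FIS

open Finset Pool.Agent.H6.NB

/-- all strings of length at most `m` -/
def Ws : ℕ → List (List Bool)
  | 0 => [[]]
  | m + 1 => [] :: ((Ws m).map (List.cons false) ++ (Ws m).map (List.cons true))

theorem Ws_len (m : ℕ) : (Ws m).length + 1 ≤ 2 ^ (m + 1) := by
  induction m with
  | zero => simp [Ws]
  | succ m ih =>
    simp only [Ws, List.length_cons, List.length_append, List.length_map]
    rw [pow_succ 2 (m + 1)]
    omega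

theorem Ws_mem (m : ℕ) : ∀ w : List Bool, w.length ≤ m → w ∈ Ws m := by
  induction m with
  | zero =>
    intro w hw
    have : w = [] := List.length_eq_zero_iff.1 (by omega)
    rw [this]
    simp [Ws]
  | succ m ih =>
    intro w hw
    cases w with
    | nil => simp [Ws]
    | cons b w =>
      rw [List.length_cons] at hw
      have := ih w (by omega)
      simp only [Ws, List.mem_cons, List.mem_append, List.mem_map]
      right
      cases b
      · exact Or.inl ⟨w, this, rfl⟩
      · exact Or.inr ⟨w, this, rfl⟩

theorem t_fis : T_FIS := by
  refine ⟨fun m => ⟨Ws m, by have := Ws_len m; omega, Ws_mem m⟩, ?_, ?_⟩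
  · intro n a
    have h1 : Set.Finite {w : List Bool | w ∈ Ws (n ^ a)} := List.finite_toSet _
    have h2 : Set.Finite {s : List Bool | n ^ 2 ≤ s.length ∧ s.length < n ^ a} :=
      h1.subset fun s hs => Ws_mem _ _ (le_of_lt hs.2)
    exact h2
  · intro n a _
    constructor
    · by_cases hN : n ^ a = 0
      · have : IsEmpty (Om n a) := ⟨fun s => by have := s.2.2; omega⟩
        rw [Fintype.card_eq_zero]
        exact Nat.zero_le _
      · classical
        have h1 : Fintype.card (Om n a) ≤ ((Ws (n ^ a - 1)).toFinset).card := by
          rw [← Fintype.card_coe]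
          refine Fintype.card_le_of_injective
            (fun s : Om n a => (⟨s.1, by
              rw [List.mem_toFinset]
              have := s.2.2
              exact Ws_mem _ _ (by omega)⟩ : {x // x ∈ (Ws (n ^ a - 1)).toFinset})) ?_
          intro s s' h
          exact Subtype.ext (congrArg (fun x => x.1) h)
        have h2 := List.toFinset_card_le (Ws (n ^ a - 1))
        have h3 := Ws_len (n ^ a - 1)
        have h4 : n ^ a - 1 + 1 = n ^ a := by omega
        rw [h4] at h3
        omega
    · have hmaps : ∀ s ∈ (Finset.univ : Finset (Om n a)), s.1.length ∈ Finset.Ico (n ^ 2) (n ^ a) := by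
        intro s _
        rw [Finset.mem_Ico]
        exact s.2
      rw [← Finset.sum_fiberwise_of_maps_to hmaps]
      have hf : ∀ l ∈ Finset.Ico (n ^ 2) (n ^ a),
          ∑ s ∈ Finset.univ.filter (fun s : Om n a => s.1.length = l), (1 / 4 : ℝ) ^ s.1.length ≤
            (1 / 2 : ℝ) ^ l := by
        intro l _
        have e1 : ∑ s ∈ Finset.univ.filter (fun s : Om n a => s.1.length = l),
            (1 / 4 : ℝ) ^ s.1.length =
            ((Finset.univ.filter (fun s : Om n a => s.1.length = l)).card : ℝ) * (1 / 4) ^ l := by
          rw [← nsmul_eq_mul, ← Finset.sum_const]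
          refine Finset.sum_congr rfl fun s hs => ?_
          rw [(Finset.mem_filter.1 hs).2]
        have e2 : (Finset.univ.filter (fun s : Om n a => s.1.length = l)).card ≤ 2 ^ l := by
          rw [← Fintype.card_subtype]
          have e3 : Fintype.card (List.Vector Bool l) = 2 ^ l := by
            rw [card_vector]
            simp
          rw [← e3]
          refine Fintype.card_le_of_injective
            (fun x : {s : Om n a // s.1.length = l} => (⟨x.1.1, x.2⟩ : List.Vector Bool l)) ?_
          intro x y h
          exact Subtype.ext (Subtype.ext (congrArg (fun v => v.1) h))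
        rw [e1]
        calc ((Finset.univ.filter (fun s : Om n a => s.1.length = l)).card : ℝ) * (1 / 4) ^ l ≤
            (2 : ℝ) ^ l * (1 / 4) ^ l := by
              refine mul_le_mul_of_nonneg_right ?_ (by positivity)
              exact_mod_cast e2
          _ = (1 / 2 : ℝ) ^ l := by
              rw [← mul_pow]
              norm_num
      refine (Finset.sum_le_sum hf).trans ?_
      refine (geom_sum_Ico_le_of_lt_one (by norm_num) (by norm_num)).trans ?_
      rw [one_div, inv_pow]
      field_simp
      norm_num

end Pool.Agent.H3.NB.FIS
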