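import Pool.Agent.H3.NB.CLS

/-!
Module LNK: the values of the oracle of the stage.
-/

set_option autoImplicit false

namespace Pool.Agent.H3.NB.LNK

open Finset Pool.Agent.H6.NB Pool.Agent.H3.NB.CLS

theorem Bld_not_key {prog : List Bool → List Bool → DT} {σ O : List Bool → Bool}
    (h : Bld prog σ O) {w : List Bool} (hw : ∀ s, w ≠ key s) : O w = σ w := by
  rw [h w]
  have : ¬ ∃ s, w = key s ∧ acc prog s O := by
    rintro ⟨s, h, -⟩
    exact hw s h
  simp [this]

open Classical in
theorem Bld_key {prog : List Bool → List Bool → DT} {σ O : List Bool → Bool}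
    (h : Bld prog σ O) (s : List Bool) : O (key s) = xor (σ (key s)) (decide (acc prog s O)) := by
  rw [h (key s)]
  congr 1
  have : (∃ s', key s = key s' ∧ acc prog s' O) ↔ acc prog s O := by
    constructor
    · rintro ⟨s', h, h'⟩
      rw [key_inj h]
      exact h'
    · intro h
      exact ⟨s, rfl, h⟩
  exact decide_eq_decide.2 this

theorem t_lnk (h1 : T_BLU) (h2 : T_EVC) (h3 : T_CLS) (h4 : T_COD) : T_LNK := by
  intro prog n a σ₀ O₀ O Y κ P hS hn hB₀ hB w hw
  obtain ⟨c1, c2, c3, c4⟩ := h3 n a O₀
  obtain ⟨d1, d2, d3, d4⟩ := h3 n a σ₀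
  by_cases e1 : ∃ u v : Fin n → Bool, w = bse (List.ofFn u) (List.ofFn v)
  · obtain ⟨u, v, rfl⟩ := e1
    rw [c1, Bld_not_key hB (fun s => bse_ne_key _ _ s)]
    unfold sd
    rw [d1]
    rfl
  by_cases e2 : ∃ s : Om n a, w = key s.1
  · obtain ⟨s, rfl⟩ := e2
    rw [c2]
    rfl
  by_cases e3 : ∃ (s : Om n a) (i : Fin (ns s.1)) (v : VV (qs s.1)),
      w = blk s.1 i v.1 (List.ofFn v.2)
  · obtain ⟨s, i, v, rfl⟩ := e3
    rw [c3, Bld_not_key hB (fun s' => blk_ne_key _ _ _ _ _)]
    unfold sd
    rw [d3]
    rfl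
  have f1 : cls n a O₀ w = .cst (O₀ w) := by
    rcases c4 w with h | h | h | h
    · exact absurd h e1
    · exact absurd h e2
    · exact absurd h e3
    · exact h
  have f2 : cls n a σ₀ w = .cst (σ₀ w) := by
    rcases d4 w with h | h | h | h
    · exact absurd h e1
    · exact absurd h e2
    · exact absurd h e3
    · exact h
  have hsw : sd n a σ₀ Y κ P w = σ₀ w := by
    unfold sd
    rw [f2]
    rfl
  rw [f1]
  change O w = O₀ w
  by_cases hk : ∃ s, w = key s
  · obtain ⟨s, rfl⟩ := hk
    rw [Bld_key hB, Bld_key hB₀, hsw]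
    congr 1
    -- the instance is short
    have hlen : (key s).length = s.length + 2 := by
      unfold key
      simp
    have hs1 : s.length < n ^ a := by omega
    have hs2 : s.length < n ^ 2 := by
      by_contra hcon
      push Not at hcon
      exact e2 ⟨⟨s, hcon, hs1⟩, rfl⟩
    -- the seeds agree below `n`
    have hagree : ∀ w : List Bool, w.length < n → sd n a σ₀ Y κ P w = σ₀ w := by
      intro w' hw'
      have hnn : n ≤ n ^ 2 := by nlinarith
      rcases d4 w' with ⟨u, v, rfl⟩ | ⟨s', rfl⟩ | ⟨s', i, v, rfl⟩ | h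
      · exfalso
        unfold bse at hw'
        simp at hw'
        omega
      · exfalso
        have := s'.2.1
        unfold key at hw'
        simp at hw'
        omega
      · exfalso
        have := s'.2.1
        have h5 := h4.2 s'.1 (List.ofFn v.2) (2 * i + v.1.toNat)
        unfold blk at hw'
        rw [List.length_cons, List.length_cons, h5] at hw'
        omega
      · unfold sd
        rw [h]
        rfl
    have hev : ∀ w' : List Bool, w'.length ^ 2 ≤ s.length →
        (prog s w').eval O = (prog s w').eval O₀ := by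
      intro w' hw'
      obtain ⟨-, m, hm, hsh⟩ := hS s w' hw'
      have hmn : m < n := by
        by_contra hcon
        push Not at hcon
        have : n ^ 2 ≤ m ^ 2 := Nat.pow_le_pow_left hcon 2
        omega
      exact h2 _ m O O₀ hsh (h1 prog _ σ₀ O O₀ m hS hB hB₀
        (fun w'' h => hagree w'' (lt_of_le_of_lt h hmn)))
    have hacc : acc prog s O ↔ acc prog s O₀ := by
      constructor
      · rintro ⟨w', hw', h⟩
        exact ⟨w', hw', by rw [← hev w' hw']; exact h⟩
      · rintro ⟨w', hw', h⟩
        exact ⟨w', hw', by rw [hev w' hw']; exact h⟩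
    exact decide_eq_decide.2 hacc
  · push Not at hk
    rw [Bld_not_key hB hk, Bld_not_key hB₀ hk, hsw]

end Pool.Agent.H3.NB.LNK
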