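import Pool.Agent.H6.NB.Targets

/-!
Module YES: the quantum algorithm works if the keys can be read.
-/

set_option autoImplicit false

namespace Pool.Agent.H3.NB.YES

open Finset Pool.Agent.H6.NB

theorem key_inj {s s' : List Bool} (h : key s = key s') : s = s' := by
  unfold key at h
  exact (List.cons.inj (List.cons.inj h).2).2

theorem blk_ne_key (s s' : List Bool) (i : ℕ) (f : Bool) (z : List Bool) : blk s i f z ≠ key s' := by
  intro h
  unfold blk key at h
  have := (List.cons.inj (List.cons.inj h).2).1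
  exact absurd this (by decide)

theorem prod_ge (N : ℕ) (a : ℕ → ℝ) (h0 : ∀ i, 0 ≤ a i) (h1 : ∀ i, a i ≤ 1) :
    1 - ∑ i ∈ range N, (N : ℝ) * a i ≤ ∏ i ∈ range N, (1 - a i) ^ N := by
  have hb : ∀ i, 1 - (N : ℝ) * a i ≤ (1 - a i) ^ N := by
    intro i
    have := one_add_mul_le_pow (a := -(a i)) (by linarith [h1 i]) N
    have e : (1 : ℝ) + -(a i) = 1 - a i := by ring
    rw [e] at this
    linarith
  have hc : ∀ i, 0 ≤ (1 - a i) ^ N := fun i => pow_nonneg (by linarith [h1 i]) N
  have hd : ∀ i, (1 - a i) ^ N ≤ 1 := fun i => pow_le_one₀ (by linarith [h1 i]) (by linarith [h0 i])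
  have key : ∀ m : ℕ, 1 - ∑ i ∈ range m, (N : ℝ) * a i ≤ ∏ i ∈ range m, (1 - a i) ^ N ∧
      ∏ i ∈ range m, (1 - a i) ^ N ≤ 1 ∧ 0 ≤ ∏ i ∈ range m, (1 - a i) ^ N := by
    intro m
    induction m with
    | zero => simp
    | succ m ih =>
      obtain ⟨i1, i2, i3⟩ := ih
      rw [Finset.sum_range_succ, Finset.prod_range_succ]
      refine ⟨?_, ?_, mul_nonneg i3 (hc m)⟩
      · have e1 := hb m
        have e2 := hc m
        have e3 := hd m
        have e4 : 0 ≤ (N : ℝ) * a m := mul_nonneg (Nat.cast_nonneg _) (h0 m)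
        nlinarith
      · exact mul_le_one₀ i2 (hc m) (hd m)
  exact (key N).1

theorem exp9 : Real.exp (-9) ≤ 1 / 3 := by
  rw [Real.exp_neg, ← one_div]
  apply one_div_le_one_div_of_le (by norm_num)
  have := Real.add_one_le_exp (9 : ℝ)
  linarith

theorem prod_le (N : ℕ) (a : ℕ → ℝ) (h0 : ∀ i, 0 ≤ a i) (h1 : ∀ i, a i ≤ 1) (i : ℕ) (hi : i < N)
    (h9 : 9 ≤ (N : ℝ) * a i) : ∏ i ∈ range N, (1 - a i) ^ N ≤ 1 / 3 := by
  have hc : ∀ i, 0 ≤ (1 - a i) ^ N := fun i => pow_nonneg (by linarith [h1 i]) N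
  have hd : ∀ i, (1 - a i) ^ N ≤ 1 := fun i => pow_le_one₀ (by linarith [h1 i]) (by linarith [h0 i])
  rw [← Finset.mul_prod_erase (range N) _ (Finset.mem_range.2 hi)]
  have e1 : ∏ i ∈ (range N).erase i, (1 - a i) ^ N ≤ 1 :=
    Finset.prod_le_one (fun j _ => hc j) (fun j _ => hd j)
  have e2 : (1 - a i) ^ N ≤ 1 / 3 := by
    refine le_trans ?_ exp9
    have e3 : 1 - a i ≤ Real.exp (-(a i)) := by
      have := Real.add_one_le_exp (-(a i))
      linarith
    calc (1 - a i) ^ N ≤ (Real.exp (-(a i))) ^ N := pow_le_pow_left₀ (by linarith [h1 i]) e3 N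
      _ = Real.exp ((N : ℝ) * (-(a i))) := by rw [← Real.exp_nat_mul]
      _ ≤ Real.exp (-9) := Real.exp_le_exp.2 (by linarith)
  have e4 := hc i
  have e5 : 0 ≤ ∏ i ∈ (range N).erase i, (1 - a i) ^ N := Finset.prod_nonneg fun j _ => hc j
  nlinarith

open Classical in
theorem t_yes (h1 : T_FOR) (h2 : T_PHB) : T_YES := by
  intro prog σ O s hB hD
  set N := ns s with hN
  have hcpy : ∀ i, cpy O s i = cpy σ s i := by
    intro i
    funext v
    unfold cpy
    rw [hB (blk s i v.1 (List.ofFn v.2))]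
    have : ¬ ∃ s', blk s i v.1 (List.ofFn v.2) = key s' ∧ acc prog s' O := by
      rintro ⟨s', h, -⟩
      exact blk_ne_key _ _ _ _ _ h
    simp [this]
  set a : ℕ → ℝ := fun i => phi (qs s) (cpy σ s i) ^ 2 with ha
  have hprob : ∀ i, (forr s i).prob O = a i := by
    intro i
    rw [h1 O s i, hcpy i]
  have ha0 : ∀ i, 0 ≤ a i := fun i => sq_nonneg _
  have ha1 : ∀ i, a i ≤ 1 := by
    intro i
    have := h2 (qs s) (cpy σ s i)
    have h3 := abs_nonneg (phi (qs s) (cpy σ s i))
    rw [ha]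
    simp only
    rw [← sq_abs]
    nlinarith
  have hkey : O (key s) = xor (σ (key s)) (decide (acc prog s O)) := by
    rw [hB (key s)]
    congr 1
    have : (∃ s', key s = key s' ∧ acc prog s' O) ↔ acc prog s O := by
      constructor
      · rintro ⟨s', h, h'⟩
        rw [key_inj h]
        exact h'
      · intro h
        exact ⟨s, rfl, h⟩
    exact decide_eq_decide.2 this
  have hP : ∏ i ∈ range (ns s), (1 - (forr s i).prob O) ^ ns s =
      ∏ i ∈ range N, (1 - a i) ^ N := by
    refine Finset.prod_congr rfl fun i _ => ?_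
    rw [hprob]
  unfold yesProb
  rw [hP, hkey]
  unfold Dec DecA at hD
  obtain ⟨hf, ht⟩ := hD
  by_cases hb : σ (key s) = true
  · obtain ⟨i, hi⟩ := ht hb
    have hphi : eps2 (qs s) / 4 ≤ phi (qs s) (cpy σ s i) := hi
    have hq : (100 : ℝ) ≤ (qs s : ℝ) := by
      have : 100 ≤ qs s := by unfold qs; omega
      exact_mod_cast this
    have hNq : (N : ℝ) = ((qs s : ℝ) + 1) ^ 4 := by
      rw [hN]
      unfold ns
      push_cast
      ring
    have h9 : 9 ≤ (N : ℝ) * a i := by
      have e0 : 0 ≤ eps2 (qs s) / 4 := by unfold eps2; positivity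
      have e1 : (eps2 (qs s) / 4) ^ 2 ≤ a i := pow_le_pow_left₀ e0 hphi 2
      have e2 : (eps2 (qs s) / 4) ^ 2 = 1 / (1024 * ((qs s : ℝ) + 3) ^ 2) := by
        unfold eps2
        field_simp
        norm_num
      rw [e2] at e1
      have e3 : 9 ≤ (N : ℝ) * (1 / (1024 * ((qs s : ℝ) + 3) ^ 2)) := by
        rw [hNq, mul_one_div, le_div_iff₀ (by positivity)]
        set x := (qs s : ℝ) with hx
        have e5 : 101 ≤ x + 1 := by linarith
        have e6 : (101 : ℝ) ^ 2 ≤ (x + 1) ^ 2 := pow_le_pow_left₀ (by norm_num) e5 2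
        have e8 : (x + 3) ≤ (103 / 101) * (x + 1) := by linarith
        have e9 : (x + 3) ^ 2 ≤ ((103 / 101) * (x + 1)) ^ 2 :=
          pow_le_pow_left₀ (by linarith) e8 2
        calc 9 * (1024 * (x + 3) ^ 2) ≤ 9 * (1024 * ((103 / 101) * (x + 1)) ^ 2) := by linarith
          _ = 9 * 1024 * (103 / 101) ^ 2 * (x + 1) ^ 2 := by ring
          _ ≤ 101 ^ 2 * (x + 1) ^ 2 :=
              mul_le_mul_of_nonneg_right (by norm_num) (sq_nonneg _)
          _ ≤ (x + 1) ^ 2 * (x + 1) ^ 2 := mul_le_mul_of_nonneg_right e6 (sq_nonneg _)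
          _ = (x + 1) ^ 4 := by ring
      have e4 : (0 : ℝ) ≤ N := Nat.cast_nonneg _
      exact e3.trans (mul_le_mul_of_nonneg_left e1 e4)
    have hle := prod_le N a ha0 ha1 i i.2 h9
    rw [hb]
    constructor
    · intro hac
      simp only [hac, decide_true, Bool.xor_self, Bool.false_eq_true, if_false]
      linarith
    · intro hac
      simp only [hac, decide_false, Bool.xor_false, if_true]
      exact hle
  · have hb' : σ (key s) = false := by simpa using hb
    have hs := hf hb'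
    have hs' : ∑ i ∈ range N, (N : ℝ) * a i ≤ 1 / 3 := by
      rw [Finset.sum_range]
      exact hs
    have hge := prod_ge N a ha0 ha1
    rw [hb']
    constructor
    · intro hac
      simp only [hac, decide_true, Bool.false_xor, if_true]
      linarith
    · intro hac
      simp only [hac, decide_false, Bool.false_xor, Bool.false_eq_true, if_false]
      linarith

end Pool.Agent.H3.NB.YES
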